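import Mathlib
import Pool.Agent.H49.Mont6

/-!
For every `ν ≥ 2` there is `f = F/G` with `F` entire and `G` a polynomial of degree `ν`,
`G(0) ≠ 0`, such that for every choice of interpolation sets `S n` for type `(n, ν)`, no sequence
of corresponding rational approximants converges to `f` on the complement of the zero set of `G`.

The example is `f = 1/(1 - z₁^(ν-1) z₂) + ∑ z₁^j z₂^k/(j+k)!`.
-/

namespace Pool.Agent.Results.MP_a75ade_an.MontessusFails

open Filter Pool.Agent.H49.Mont

theorem not_converges {a : ℕ} (ha : 1 ≤ a) {S : ℕ → Finset (ℕ × ℕ)}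
    (hS : ∀ n, IsInterpolationSet n (a + 1) (S n)) {P Q : ℕ → MvPolynomial (Fin 2) ℂ}
    (hPQ : ∀ n, IsApproximant n (a + 1) (fser a) (S n) (P n) (Q n)) :
    ¬ ConvergesOn P Q (fun z => Ffun a z / MvPolynomial.eval z (Gpol a))
      {z | MvPolynomial.eval z (Gpol a) ≠ 0} := by
  intro hconv
  obtain ⟨hnz, hunif⟩ := hconv torus2 isCompact_torus2 (torus2_subset a)
  rw [Metric.tendstoUniformlyOn_iff] at hunif
  have h1 := hunif 1 one_pos
  have hB := Bc_nonneg
  have h2 := eventually_small a (T (a + 1)).card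
    (C := (2 + Bc) * 2 ^ (a + 1)) (by positivity)
  obtain ⟨n0, hn0⟩ := eventually_atTop.mp (hnz.and (h1.and h2))
  obtain ⟨hnz', hclose, hsmall⟩ := hn0 ((a + 1) * (n0 + 2)) (by nlinarith)
  refine main_impossible ha rfl (by omega : 2 ≤ n0 + 2) (hS _) (hPQ _) hsmall hnz' ?_
  intro z hz
  have := hclose z hz
  rw [dist_comm, dist_eq_norm] at this
  exact this.le

/-- **The Montessus-type statement fails for every `ν ≥ 2`**: there are an entire function `F` and
a polynomial `G` of degree `ν` with `G(0) ≠ 0` (and `F` without zeros on `{G = 0}`) such that for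
all interpolation sets `S n` for type `(n, ν)`, rational approximants of type `(n, ν)` to
`f = F/G` corresponding to `S n` exist, and no sequence of them converges to `f` on
`ℂ² ∖ {G = 0}`. -/
theorem result (ν : ℕ) (hν : 2 ≤ ν) :
    ∃ (F : (Fin 2 → ℂ) → ℂ) (Fser f : MvPowerSeries (Fin 2) ℂ) (G : MvPolynomial (Fin 2) ℂ),
      IsEntireWithSeries F Fser ∧
      G.totalDegree = ν ∧ MvPolynomial.eval 0 G ≠ 0 ∧
      (∀ z, MvPolynomial.eval z G = 0 → F z ≠ 0) ∧
      (G : MvPowerSeries (Fin 2) ℂ) * f = Fser ∧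
      ∀ S : ℕ → Finset (ℕ × ℕ), (∀ n, IsInterpolationSet n ν (S n)) →
        (∃ P Q : ℕ → MvPolynomial (Fin 2) ℂ, ∀ n, IsApproximant n ν f (S n) (P n) (Q n)) ∧
        ∀ P Q : ℕ → MvPolynomial (Fin 2) ℂ,
          (∀ n, IsApproximant n ν f (S n) (P n) (Q n)) →
            ¬ ConvergesOn P Q (fun z => F z / MvPolynomial.eval z G)
              {z | MvPolynomial.eval z G ≠ 0} := by
  obtain ⟨a, rfl⟩ : ∃ a, ν = a + 1 := ⟨ν - 1, by omega⟩
  have ha : 1 ≤ a := by omega
  refine ⟨Ffun a, _, fser a, Gpol a, isEntire a, totalDegree_Gpol a, ?_, ?_, rfl, ?_⟩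
  · rw [eval_Gpol]
    simp
  · intro z hz
    rw [eval_Gpol] at hz
    rw [Ffun, hz, zero_mul, add_zero]
    exact one_ne_zero
  · intro S hS
    refine ⟨?_, fun P Q hPQ => not_converges ha hS hPQ⟩
    have h := fun n => exists_approximant n (a + 1) (fser a) (S n) (hS n)
    choose P Q hPQ using h
    exact ⟨P, Q, hPQ⟩

end Pool.Agent.Results.MP_a75ade_an.MontessusFails
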